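import Mathlib
import Pool.Agent.Y973.NM.Main

/-!
# The cardinalities of the (everywhere) non-meager independent families

We prove in ZFC that the cardinalities of the independent families of subsets of `ℕ` that are
non-meager in every nonempty open set are exactly the cardinals between `non(meager)` and the
continuum. In particular `i(meager) = non(meager)`.
-/

set_option autoImplicit false

open Set Filter Topology Cardinal

namespace Pool.Agent.Results.MP_fb02e9_lc.EverywhereSpectrum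

/-- The Cantor space, with the product topology. -/
abbrev Cantor : Type := ℕ → Bool

/-- A family of infinite subsets of `ℕ` is independent if for all finite disjoint `F, G ⊆ A`, not
both empty, the set of the natural numbers which lie in all members of `F` and in no member of `G`
is infinite. -/
def IsIndependent (A : Set (Set ℕ)) : Prop :=
  (∀ a ∈ A, a.Infinite) ∧
    ∀ F G : Finset (Set ℕ), (F : Set (Set ℕ)) ⊆ A → (G : Set (Set ℕ)) ⊆ A → Disjoint F G →
      (F.Nonempty ∨ G.Nonempty) → {n : ℕ | (∀ a ∈ F, n ∈ a) ∧ ∀ b ∈ G, n ∉ b}.Infinite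

/-- The set of the characteristic functions of the members of `A`. -/
def charSet (A : Set (Set ℕ)) : Set Cantor := {x | {n : ℕ | x n = true} ∈ A}

/-- `non(meager)`: the least cardinality of a non-meager subset of the Cantor space. -/
noncomputable def nonMeager : Cardinal.{0} :=
  sInf {κ | ∃ X : Set Cantor, ¬ IsMeagre X ∧ #X = κ}

/-- `i(meager)`: the least cardinality of a non-meager independent family. -/
noncomputable def iMeager : Cardinal.{0} :=
  sInf {κ | ∃ A : Set (Set ℕ), IsIndependent A ∧ ¬ IsMeagre (charSet A) ∧ #A = κ}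

/-- **Theorem (ZFC).** (1) For every cardinal `κ`, there is an independent family of cardinality `κ`
that is non-meager in every nonempty open subset of the Cantor space, if and only if
`non(meager) ≤ κ ≤ 𝔠`. (2) The same holds for non-meager independent families. (3) In particular
`i(meager) = non(meager)`, and both minima are attained. -/
theorem result :
    (∀ κ : Cardinal.{0},
      (∃ A : Set (Set ℕ), IsIndependent A ∧
        (∀ U : Set Cantor, IsOpen U → U.Nonempty → ¬ IsMeagre (charSet A ∩ U)) ∧ #A = κ) ↔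
      nonMeager ≤ κ ∧ κ ≤ 𝔠) ∧
    (∀ κ : Cardinal.{0},
      (∃ A : Set (Set ℕ), IsIndependent A ∧ ¬ IsMeagre (charSet A) ∧ #A = κ) ↔
      nonMeager ≤ κ ∧ κ ≤ 𝔠) ∧
    (∃ X : Set Cantor, ¬ IsMeagre X ∧ #X = nonMeager) ∧
    (∃ A : Set (Set ℕ), IsIndependent A ∧ ¬ IsMeagre (charSet A) ∧ #A = iMeager) ∧
    iMeager = nonMeager := by
  -- necessary
  have hnec : ∀ A : Set (Set ℕ), ¬ IsMeagre (charSet A) → nonMeager ≤ #A ∧ #A ≤ 𝔠 := by
    intro A hA
    refine ⟨?_, ?_⟩
    · rw [← Pool.Agent.Results.MP_fb02e9_lc.Equality.mk_charSet]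
      have h3 : #(charSet A) ∈ {κ | ∃ X : Set Cantor, ¬ IsMeagre X ∧ #X = κ} :=
        ⟨charSet A, hA, rfl⟩
      exact csInf_le' h3
    · have h := mk_set_le A
      simpa using h
  -- sufficient
  have hsuf : ∀ κ : Cardinal.{0}, nonMeager ≤ κ → κ ≤ 𝔠 → ∃ A : Set (Set ℕ), IsIndependent A ∧
      (∀ U : Set Cantor, IsOpen U → U.Nonempty → ¬ IsMeagre (charSet A ∩ U)) ∧ #A = κ := by
    intro κ h1 h2
    obtain ⟨X, hX, hXκ⟩ := Pool.Agent.Y973.NM.exists_everywhere κ h1 h2
    obtain ⟨A, hA1, hA2, hA3⟩ := Pool.Agent.Y973.NM.exists_everywhere_family hX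
    refine ⟨A, hA1, ?_, hA3.trans hXκ⟩
    rintro U hU ⟨y, hy⟩ hm
    obtain ⟨E, hE⟩ := Pool.Agent.Results.MP_fb02e9_lc.Equality.exists_finset_of_isOpen hU hy
    refine hA2 E y (hm.mono ?_)
    rintro x ⟨hx1, hx2⟩
    exact ⟨hx1, hE x hx2⟩
  have hspec : ∀ κ : Cardinal.{0},
      (∃ A : Set (Set ℕ), IsIndependent A ∧ ¬ IsMeagre (charSet A) ∧ #A = κ) ↔
      nonMeager ≤ κ ∧ κ ≤ 𝔠 := by
    intro κ
    constructor
    · rintro ⟨A, -, hA, rfl⟩
      exact hnec A hA
    · rintro ⟨h1, h2⟩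
      obtain ⟨A, hA1, hA2, hA3⟩ := hsuf κ h1 h2
      refine ⟨A, hA1, fun h => hA2 Set.univ isOpen_univ Set.univ_nonempty ?_, hA3⟩
      rwa [Set.inter_univ]
  have hne : {κ | ∃ X : Set Cantor, ¬ IsMeagre X ∧ #X = κ}.Nonempty := by
    refine ⟨_, Set.univ, ?_, rfl⟩
    exact not_isMeagre_of_mem_residual univ_mem
  obtain ⟨X, hX, hXc⟩ : ∃ X : Set Cantor, ¬ IsMeagre X ∧ #X = nonMeager := csInf_mem hne
  have hle : nonMeager ≤ 𝔠 := by
    rw [← hXc]
    refine (mk_set_le X).trans ?_
    simp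
  have hmem := (hspec nonMeager).2 ⟨le_rfl, hle⟩
  have hne2 : {κ | ∃ A : Set (Set ℕ), IsIndependent A ∧ ¬ IsMeagre (charSet A) ∧ #A = κ}.Nonempty :=
    ⟨_, hmem⟩
  have h2 : ∃ A : Set (Set ℕ), IsIndependent A ∧ ¬ IsMeagre (charSet A) ∧ #A = iMeager :=
    csInf_mem hne2
  refine ⟨?_, hspec, ⟨X, hX, hXc⟩, h2, le_antisymm (csInf_le' hmem) ((hspec iMeager).1 h2).1⟩
  intro κ
  constructor
  · rintro ⟨A, -, hA, rfl⟩
    refine hnec A fun h => hA Set.univ isOpen_univ Set.univ_nonempty ?_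
    rwa [Set.inter_univ]
  · rintro ⟨h1, h2⟩
    exact hsuf κ h1 h2

end Pool.Agent.Results.MP_fb02e9_lc.EverywhereSpectrum
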